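import Pool.Agent.Helper61.QE.St1

/-!
Project QD, part E, module SUB: rules for Moebius maps.
-/

set_option autoImplicit false

open MeasureTheory Set Filter Topology Complex
open scoped ContDiff ComplexConjugate ENNReal

namespace Pool.Agent.Helper79.QE

open Pool.Agent.Helper68.QC Pool.Agent.Helper61.QE

private theorem sub_det (A : SL) : A 0 0 * A 1 1 - A 0 1 * A 1 0 = 1 := by
  have h := A.det_coe
  rwa [Matrix.det_fin_two] at h

private theorem sub_mul (A B : SL) (i j : Fin 2) :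
    (A * B) i j = A i 0 * B 0 j + A i 1 * B 1 j := by
  rw [Matrix.SpecialLinearGroup.coe_mul, Matrix.mul_apply, Fin.sum_univ_two]

private theorem sub_inv (A : SL) : A⁻¹ 0 0 = A 1 1 ∧ A⁻¹ 0 1 = - A 0 1 ∧
    A⁻¹ 1 0 = - A 1 0 ∧ A⁻¹ 1 1 = A 0 0 := by
  rw [Matrix.SpecialLinearGroup.coe_inv, Matrix.adjugate_fin_two]
  simp

private theorem sub_jj (A : SL) : jj A 0 0 = A 1 1 ∧ jj A 0 1 = A 1 0 ∧
    jj A 1 0 = A 0 1 ∧ jj A 1 1 = A 0 0 := ⟨rfl, rfl, rfl, rfl⟩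

private theorem sub_comp (A B : SL) (z : ℂ) (h : den B z ≠ 0) :
    den (A * B) z = den A (mob B z) * den B z ∧ mob (A * B) z = mob A (mob B z) := by
  obtain ⟨w, hw⟩ : ∃ w, w = mob B z := ⟨_, rfl⟩
  have h1 : w * den B z = B 0 0 * z + B 0 1 := by
    rw [hw, mob, div_mul_cancel₀ _ h]
  have h2 : den (A * B) z = den A w * den B z := by
    have h3 : den (A * B) z = A 1 0 * (B 0 0 * z + B 0 1) + A 1 1 * den B z := by
      rw [den, den, sub_mul, sub_mul]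
      ring
    have h5 : den A w = A 1 0 * w + A 1 1 := rfl
    rw [h3, ← h1, h5]
    ring
  refine ⟨by rw [← hw]; exact h2, ?_⟩
  have h4 : (A * B) 0 0 * z + (A * B) 0 1 = (A 0 0 * w + A 0 1) * den B z := by
    have h3 : (A * B) 0 0 * z + (A * B) 0 1 =
        A 0 0 * (B 0 0 * z + B 0 1) + A 0 1 * den B z := by
      rw [den, sub_mul, sub_mul]
      ring
    rw [h3, ← h1]
    ring
  rw [mob, h4, h2, ← hw, mul_div_mul_right _ _ h]
  rfl

private theorem sub_deriv (A : SL) (z : ℂ) (h : den A z ≠ 0) :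
    HasDerivAt (mob A) ((den A z ^ 2)⁻¹) z := by
  have h1 : HasDerivAt (fun z => A 0 0 * z + A 0 1) (A 0 0) z :=
    (((hasDerivAt_id z).const_mul (A 0 0)).add_const (A 0 1)).congr_deriv (mul_one _)
  have h2 : HasDerivAt (den A) (A 1 0) z :=
    (((hasDerivAt_id z).const_mul (A 1 0)).add_const (A 1 1)).congr_deriv (mul_one _)
  have h3 := h1.div h2 h
  refine h3.congr_deriv ?_
  rw [div_eq_iff (pow_ne_zero 2 h), inv_mul_cancel₀ (pow_ne_zero 2 h)]
  have hd := sub_det A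
  unfold den
  linear_combination hd

private theorem sub_diff (A : SL) (z w : ℂ) (hz : den A z ≠ 0) (hw : den A w ≠ 0) :
    mob A z - mob A w = (z - w) / (den A z * den A w) := by
  have hd := sub_det A
  rw [mob, mob, div_sub_div _ _ hz hw]
  congr 1
  unfold den
  linear_combination (z - w) * hd

private theorem sub_norm (A : SL) (h : SU A) : ‖A 0 0‖ ^ 2 = 1 + ‖A 1 0‖ ^ 2 := by
  obtain ⟨h1, h2⟩ := h
  have hd := sub_det A
  rw [h1, h2, mul_conj, mul_conj, normSq_eq_norm_sq, normSq_eq_norm_sq] at hd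
  have h3 : ‖A 0 0‖ ^ 2 - ‖A 0 1‖ ^ 2 = 1 := by exact_mod_cast hd
  have h4 : ‖A 1 0‖ = ‖A 0 1‖ := by rw [h2, RCLike.norm_conj]
  rw [h4]
  linarith

private theorem sub_ne (A : SL) (h : SU A) (z : ℂ) (hz : ‖z‖ ≤ 1) : den A z ≠ 0 := by
  intro h0
  have h1 : A 1 1 = -(A 1 0 * z) := eq_neg_of_add_eq_zero_right h0
  have h2 : ‖A 1 1‖ ≤ ‖A 1 0‖ := by
    rw [h1, norm_neg, norm_mul]
    exact mul_le_of_le_one_right (norm_nonneg _) hz
  have h3 : ‖A 1 1‖ = ‖A 0 0‖ := by rw [h.1, RCLike.norm_conj]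
  have h4 := sub_norm A h
  rw [h3] at h2
  have h5 : ‖A 0 0‖ ^ 2 ≤ ‖A 1 0‖ ^ 2 := by gcongr
  linarith

private theorem sub_sq (A : SL) (h : SU A) (z : ℂ) :
    ‖den A z‖ ^ 2 - ‖A 0 0 * z + A 0 1‖ ^ 2 = 1 - ‖z‖ ^ 2 := by
  obtain ⟨h1, h2⟩ := h
  have hd := sub_det A
  have h01 : A 0 1 = conj (A 1 0) := by rw [h2, conj_conj]
  have h3 : ((‖den A z‖ ^ 2 - ‖A 0 0 * z + A 0 1‖ ^ 2 : ℝ) : ℂ) = ((1 - ‖z‖ ^ 2 : ℝ) : ℂ) := by
    have e : ∀ w : ℂ, ((‖w‖ ^ 2 : ℝ) : ℂ) = w * conj w := by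
      intro w
      rw [mul_conj, normSq_eq_norm_sq]
    rw [ofReal_sub, ofReal_sub, e, e, e, den, ofReal_one]
    simp only [map_add, map_mul]
    have e1 : conj (A 1 1) = A 0 0 := by rw [h1, conj_conj]
    have e2 : conj (A 1 0) = A 0 1 := h01.symm
    have e3 : conj (A 0 0) = A 1 1 := h1.symm
    have e4 : conj (A 0 1) = A 1 0 := h2.symm
    rw [e1, e2, e3, e4]
    linear_combination (1 - z * conj z) * hd
  exact_mod_cast h3

private theorem sub_five (A : SL) (h : SU A) (z : ℂ) (hz : den A z ≠ 0) :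
    (1 - ‖mob A z‖ ^ 2) * ‖den A z‖ ^ 2 = 1 - ‖z‖ ^ 2 := by
  rw [← sub_sq A h z, mob, norm_div]
  have : ‖den A z‖ ≠ 0 := norm_ne_zero_iff.2 hz
  field_simp

private theorem sub_rf (A : SL) (h : SU A) (z : ℂ) (hz : z ≠ 0) :
    mob A (rf z) = rf (mob A z) := by
  obtain ⟨h1, h2⟩ := h
  have hc : conj z ≠ 0 := (map_ne_zero _).2 hz
  have e1 : conj (A 1 1) = A 0 0 := by rw [h1, conj_conj]
  have e2 : conj (A 1 0) = A 0 1 := by rw [h2, conj_conj]
  have e3 : den A (rf z) = conj (A 0 0 * z + A 0 1) / conj z := by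
    rw [den, rf, map_add, map_mul, ← h1, ← h2]
    field_simp
    ring
  have e4 : A 0 0 * rf z + A 0 1 = conj (den A z) / conj z := by
    rw [den, rf, map_add, map_mul, e1, e2]
    field_simp
    ring
  rw [mob, e3, e4, div_div_div_cancel_right₀ hc, rf, mob, map_div₀, one_div_div]

private theorem sub_conj (A : SL) (h : SU A) (i j : Fin 2) : jj A i j = conj (A i j) := by
  obtain ⟨h1, h2⟩ := h
  obtain ⟨j1, j2, j3, j4⟩ := sub_jj A
  have e1 : conj (A 1 1) = A 0 0 := by rw [h1, conj_conj]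
  have e2 : conj (A 1 0) = A 0 1 := by rw [h2, conj_conj]
  fin_cases i <;> fin_cases j
  · exact j1.trans h1
  · exact j2.trans h2
  · exact j3.trans e2.symm
  · exact j4.trans e1.symm

private theorem sub_nine (A : SL) (h : SU A) (u : ℂ) :
    mob (jj A) u = conj (mob A (conj u)) ∧ den (jj A) u = conj (den A (conj u)) := by
  have hj := sub_conj A h
  have hd : den (jj A) u = conj (den A (conj u)) := by
    rw [den, den, hj, hj, map_add, map_mul, conj_conj]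
  refine ⟨?_, hd⟩
  rw [mob, mob, hd, hj, hj, map_div₀, map_add, map_mul, conj_conj]

private theorem sub_seven (A B : SL) (hA : SU A) (hB : SU B) :
    SU (A * B) ∧ SU A⁻¹ ∧ SU (jj A) := by
  obtain ⟨a1, a2⟩ := hA
  obtain ⟨b1, b2⟩ := hB
  have ea1 : conj (A 1 1) = A 0 0 := by rw [a1, conj_conj]
  have ea2 : conj (A 1 0) = A 0 1 := by rw [a2, conj_conj]
  have eb1 : conj (B 1 1) = B 0 0 := by rw [b1, conj_conj]
  have eb2 : conj (B 1 0) = B 0 1 := by rw [b2, conj_conj]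
  obtain ⟨i1, i2, i3, i4⟩ := sub_inv A
  refine ⟨⟨?_, ?_⟩, ⟨?_, ?_⟩, ?_, ?_⟩
  · rw [sub_mul, sub_mul, map_add, map_mul, map_mul, ← a1, ← b1, ← a2, eb2]
    ring
  · rw [sub_mul, sub_mul, map_add, map_mul, map_mul, ← a1, ← b2, ← a2, eb1]
    ring
  · rw [i4, i1, ea1]
  · rw [i3, i2, map_neg, ← a2]
  · exact ea1.symm
  · exact ea2.symm

private theorem sub_ten (A : SL) (z : ℂ) (h : den A z ≠ 0) :
    mob A⁻¹ (mob A z) = z ∧ den A⁻¹ (mob A z) * den A z = 1 := by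
  have hd := sub_det A
  obtain ⟨i1, i2, i3, i4⟩ := sub_inv A
  obtain ⟨w, hw⟩ : ∃ w, w = mob A z := ⟨_, rfl⟩
  have h1 : w * den A z = A 0 0 * z + A 0 1 := by
    rw [hw, mob, div_mul_cancel₀ _ h]
  have h2 : den A⁻¹ w * den A z = 1 := by
    have h3 : den A⁻¹ w * den A z = - A 1 0 * (w * den A z) + A 0 0 * den A z := by
      rw [den, i3, i4]
      ring
    rw [h3, h1, den]
    linear_combination hd
  have h4 : den A⁻¹ w ≠ 0 := left_ne_zero_of_mul_eq_one h2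
  rw [← hw]
  refine ⟨?_, h2⟩
  have h5 : (A⁻¹ 0 0 * w + A⁻¹ 0 1) * den A z = z := by
    have h3 : (A⁻¹ 0 0 * w + A⁻¹ 0 1) * den A z = A 1 1 * (w * den A z) - A 0 1 * den A z := by
      rw [i1, i2]
      ring
    rw [h3, h1, den]
    linear_combination z * hd
  rw [mob, div_eq_iff h4]
  calc A⁻¹ 0 0 * w + A⁻¹ 0 1 = (A⁻¹ 0 0 * w + A⁻¹ 0 1) * (den A⁻¹ w * den A z) := by
        rw [h2, mul_one]
    _ = ((A⁻¹ 0 0 * w + A⁻¹ 0 1) * den A z) * den A⁻¹ w := by ring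
    _ = z * den A⁻¹ w := by rw [h5]

theorem pSUB : Pool.Agent.Helper61.QE.StSUB :=
  ⟨fun A B z h => sub_comp A B z h, sub_deriv, fun A z w hz hw => sub_diff A z w hz hw, sub_ne,
    sub_five, sub_rf, sub_seven, sub_norm, fun A h => ⟨sub_conj A h, sub_nine A h⟩, sub_ten⟩

end Pool.Agent.Helper79.QE
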